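import Pool.Agent.TH664.VSP.Red

/-!
# Single-vehicle scheduling on a path with release and handling times is NP-hard

Reduction from subset sum. For every item `a` there are two neighbouring vertices `u`, `v` of the
path, at distance `a`. The job at `v` is long and always available. The job at `u` has handling time
`2 a`; it is released shortly before the time at which the long job at `v` is completed if the
vehicle does not lose time. So the vehicle can process it on the way out only by going back from `v` to
`u` and again to `v`, which costs `2 a` units of travel time, or else on the way back. The last job, at
the other end of the path, has a late release time, so that `4 G` units of time can be used before it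
without loss. All jobs can be completed by the time `K` if and only if the items processed on the
way out have sum exactly `G`. Both distances and handling times are binary numbers (weak
NP-hardness).
-/

set_option autoImplicit false

namespace Pool.Agent.Results.MP_6e49ee_lc.PathVSPHard

open Pool.Agent.NPC Pool.Agent.TH664.VSP

/-- **The single-vehicle scheduling problem on a path with release times and positive handling times is
NP-hard** (numbers in binary), and it stays NP-hard when the start vertex is an end of the path and
all travel times are positive and independent of the direction. -/
theorem result :
    NPHardP PathVSP ∧
    ∀ L : Set (List Bool), InNP L → ∃ f : List Bool → List Bool, PolyTime f ∧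
      ∀ w, ∃ I : Inst, f w = bits I ∧ Simple I ∧ (w ∈ L ↔ PathVSP I) := by
  refine ⟨hardPr_vsp.toHardI.toNPHardP, fun L hL => ?_⟩
  obtain ⟨g, hg, hgp, hgL⟩ := hardPr_vsp L hL
  exact ⟨fun x => bits (g x), PC.toPolyTime hg, fun w => ⟨g w, rfl, hgp w, hgL w⟩⟩

end Pool.Agent.Results.MP_6e49ee_lc.PathVSPHard
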